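import Mathlib

set_option autoImplicit false

namespace Pool.Agent.FS.OddVenn2

open Finset

theorem count_step {ι : Type} [Fintype ι] [DecidableEq ι] (A : Finset (Finset ι)) (W P : Finset ι)
    (hP : P ⊆ W) (hW : W.card ≤ 5) (hA : ∀ S ∈ A, S \ W ∪ P ∈ A) :
    32 * (A.filter fun S => S ∩ W ≠ P).card ≤ 31 * A.card := by
  have h1 : A.card ≤ 32 * (A.filter fun S => S ∩ W = P).card := by
    refine card_le_mul_card_image_of_maps_to (f := fun S => S \ W ∪ P) (fun S hS => ?_) 32
      (fun T _ => ?_)
    · refine mem_filter.2 ⟨hA S hS, ?_⟩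
      ext x
      simp only [mem_inter, mem_union, mem_sdiff]
      have := @hP x
      tauto
    · refine le_trans (card_le_card_of_injOn (t := W.powerset) (fun S => S ∩ W)
        (fun S _ => by simp) ?_) ?_
      · intro S hS S' hS' e
        have a := (mem_filter.1 (mem_coe.1 hS)).2
        have b := (mem_filter.1 (mem_coe.1 hS')).2
        have c := a.trans b.symm
        ext x
        have e1 := Finset.ext_iff.1 e x
        have e2 := Finset.ext_iff.1 c x
        simp only [mem_inter, mem_union, mem_sdiff] at e1 e2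
        have := @hP x
        tauto
      · rw [card_powerset]
        exact (Nat.pow_le_pow_right (by norm_num) hW).trans (by norm_num)
  have h2 := card_filter_add_card_filter_not (s := A) (fun S => S ∩ W = P)
  simp only [ne_eq]
  omega

theorem count_all {ι : Type} [Fintype ι] [DecidableEq ι] (W P : ℕ → Finset ι) (m : ℕ)
    (hP : ∀ j, P j ⊆ W j) (hW : ∀ j, (W j).card ≤ 5)
    (hd : ∀ j < m, ∀ k < m, j ≠ k → Disjoint (W j) (W k)) :
    32 ^ m * (univ.filter fun S : Finset ι => ∀ j < m, S ∩ W j ≠ P j).card ≤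
      31 ^ m * 2 ^ Fintype.card ι := by
  induction m with
  | zero => simp
  | succ m ih =>
    have ih' := ih fun j hj k hk => hd j (by omega) k (by omega)
    have h := count_step (univ.filter fun S : Finset ι => ∀ j < m, S ∩ W j ≠ P j) (W m) (P m)
      (hP m) (hW m) (by
        intro S hS
        refine mem_filter.2 ⟨mem_univ _, fun j hj => ?_⟩
        have e : (S \ W m ∪ P m) ∩ W j = S ∩ W j := by
          ext x
          have a : x ∈ W j → x ∉ W m :=
            fun hx => Finset.disjoint_left.1 (hd j (by omega) m (by omega) (by omega)) hx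
          have b := @hP m x
          simp only [mem_inter, mem_union, mem_sdiff]
          tauto
        rw [e]
        exact (mem_filter.1 hS).2 j hj)
    have e : (univ.filter fun S : Finset ι => ∀ j < m + 1, S ∩ W j ≠ P j) =
        (univ.filter fun S : Finset ι => ∀ j < m, S ∩ W j ≠ P j).filter
          fun S => S ∩ W m ≠ P m := by
      ext S
      simp only [mem_filter, mem_univ, true_and, Nat.forall_lt_succ_right]
    rw [e, pow_succ, pow_succ]
    nlinarith [Nat.mul_le_mul_left (32 ^ m) h]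

/-- The subsets that avoid the pattern for the shift `D`. -/
def Av {n : ℕ} (ι : ℤ → Fin n) (D : ℤ) (S : Finset (Fin n)) : Prop :=
  ∀ z : ℤ, ι (z - 1) ∉ S → ι z ∈ S → ι (z + 2) ∉ S → ι (z + 3) ∈ S → ι (z + D) ∈ S

open Classical in
theorem count_av {n : ℕ} (ι : ℤ → Fin n)
    (hι : ∀ y y' : ℤ, 0 ≤ y → y < n → 0 ≤ y' → y' < n → ι y = ι y' → y = y') (D : ℤ)
    (h1 : (n : ℤ) ≤ 3 * D) (h2 : 3 * D ≤ 2 * n) :
    32 ^ (n / 15) * (univ.filter fun S => Av ι D S).card ≤ 31 ^ (n / 15) * 2 ^ n := by
  have h := count_all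
    (fun j : ℕ => ({5 * (j : ℤ), 5 * (j : ℤ) + 1, 5 * (j : ℤ) + 3, 5 * (j : ℤ) + 4,
      5 * (j : ℤ) + 1 + D} : Finset ℤ).image ι)
    (fun j : ℕ => ({5 * (j : ℤ) + 1, 5 * (j : ℤ) + 4} : Finset ℤ).image ι) (n / 15)
    (fun j => image_subset_image (by intro x; simp only [Finset.mem_insert, Finset.mem_singleton]; tauto))
    (fun j => card_image_le.trans card_le_five)
    (by
      intro j hj k hk hjk
      rw [Finset.disjoint_left]
      intro x hx hx'
      obtain ⟨y, hy, rfl⟩ := mem_image.1 hx
      obtain ⟨y', hy', e⟩ := mem_image.1 hx'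
      simp only [Finset.mem_insert, Finset.mem_singleton] at hy hy'
      have := hι y' y (by omega) (by omega) (by omega) (by omega) e
      omega)
  rw [Fintype.card_fin] at h
  refine le_trans (Nat.mul_le_mul_left _ (card_le_card fun S hS => ?_)) h
  refine mem_filter.2 ⟨mem_univ _, fun j hj e => ?_⟩
  have hS' := (mem_filter.1 hS).2 (5 * j + 1)
  have pos : ∀ y : ℤ, y = 5 * j + 1 ∨ y = 5 * j + 4 → ι y ∈ S := fun y hy =>
    (mem_inter.1 (e ▸ mem_image_of_mem ι (by simpa using hy) :
      ι y ∈ S ∩ _)).1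
  have neg : ∀ y : ℤ, y = 5 * j ∨ y = 5 * j + 3 ∨ y = 5 * j + 1 + D → ι y ∉ S := by
    intro y hy hyS
    have : ι y ∈ ({5 * (j : ℤ) + 1, 5 * (j : ℤ) + 4} : Finset ℤ).image ι := by
      rw [← e]
      exact mem_inter.2 ⟨hyS, mem_image_of_mem ι (by simp only [Finset.mem_insert, Finset.mem_singleton]; tauto)⟩
    obtain ⟨y', hy', e'⟩ := mem_image.1 this
    simp only [Finset.mem_insert, Finset.mem_singleton] at hy'
    have := hι y' y (by omega) (by omega) (by omega) (by omega) e'
    omega
  exact neg _ (Or.inr (Or.inr rfl)) (hS' (neg _ (by omega)) (pos _ (by omega)) (neg _ (by omega))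
    (pos _ (by omega)))

end Pool.Agent.FS.OddVenn2
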