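import Pool.Agent.Lib.MP_80d9dd_co.Own
import Pool.Agent.FS.OddVenn2.Wires

set_option autoImplicit false
set_option linter.deprecated false

namespace Pool.Agent.FS.OddVenn2

open Set Filter Topology Pool.Agent.Lib.MP_80d9dd_co

/-- Radius functions of a simple symmetric Venn diagram in polar form. -/
def PolarGen (n : ℕ) (G : Finset (Fin n) → ℕ → Prop) (Φ : ℝ → ℝ) (ψ : Fin n → ℝ → ℝ) : Prop :=
  Continuous Φ ∧ Function.Periodic Φ 1 ∧ (∀ i t, ψ i t = Φ (t - (i : ℕ) / n)) ∧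
    (∀ S : Finset (Fin n), ∃ (A : Finset ℤ) (J : ℤ → Set ℝ), A.Nonempty ∧ G S A.card ∧
      (∀ a ∈ A, IsConnected (J a) ∧ ∀ t ∈ J a, ∀ i ∈ S, ∀ j ∉ S, ψ j t < ψ i t) ∧
      ∀ t, (∀ i ∈ S, ∀ j ∉ S, ψ j t < ψ i t) → ∃ a ∈ A, ∃ k : ℤ, t + k ∈ J a) ∧
    (∀ i j, i ≠ j → {t | 0 ≤ t ∧ t < 1 ∧ ψ i t = ψ j t}.Finite) ∧
    (∀ i j k t, i ≠ j → j ≠ k → i ≠ k → ψ i t = ψ j t → ψ j t = ψ k t → False) ∧
    ∀ i j t, i ≠ j → ψ i t = ψ j t → ∃ᶠ y in 𝓝 t, ψ j y < ψ i y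

theorem polar_gen (n M : ℕ) (G : Finset (Fin n) → ℕ → Prop) (hn : 0 < n) (hM : 0 < M) (g : ℤ → ℤ)
    (hper : ∀ t, g (t + n * M) = g t)
    (h : Fin n → ℤ → ℤ) (hh : ∀ i t, h i t = g (t - (i : ℕ) * M))
    (hinj : ∀ t i j, h i t = h j t → i = j) (hs : ∀ t, ∃ a b, Step h t a b)
    (hcont : ∀ S : Finset (Fin n), ∃ (A : Finset ℤ) (p q : ℤ → ℤ), A.Nonempty ∧ G S A.card ∧
      (∀ a ∈ A, p a ≤ q a ∧ ∀ t, p a ≤ t → t ≤ q a → ∀ i ∈ S, ∀ j ∉ S, h j t < h i t) ∧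
      ∀ t, (∀ i ∈ S, ∀ j ∉ S, h j t < h i t) →
        ∃ a ∈ A, ∃ k : ℤ, p a ≤ t + k * (n * M) ∧ t + k * (n * M) ≤ q a) :
    ∃ Φ ψ, PolarGen n G Φ ψ := by
  have hn' : (0 : ℝ) < n := by exact_mod_cast hn
  have hM' : (0 : ℝ) < M := by exact_mod_cast hM
  set N : ℝ := n * M with hN
  have hN0 : 0 < N := by positivity
  have hgk : ∀ k t : ℤ, g (t + k * (n * M)) = g t := by
    intro k t
    have : Function.Periodic g (n * M) := hper
    exact this.int_mul k t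
  have hψ : ∀ (i : Fin n) (t : ℝ), lin (h i) (N * t) = lin g (N * (t - (i : ℕ) / n)) := by
    intro i t
    have e : N * (t - (i : ℕ) / n) = N * t + ((-((i : ℕ) * M : ℤ) : ℤ) : ℝ) := by
      push_cast
      rw [hN]
      field_simp
      ring
    rw [e, lin_add_int]
    congr 1
    funext t
    rw [hh]
    congr 1
  have hshift : ∀ (i : Fin n) (x : ℝ) (k : ℤ), lin (h i) (x + k * N) = lin (h i) x := by
    intro i x k
    have e : x + k * N = x + ((k * (n * M) : ℤ) : ℝ) := by push_cast; rfl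
    rw [e, lin_add_int]
    congr 1
    funext t
    rw [hh, hh, ← hgk k (t - (i : ℕ) * M)]
    congr 1
    ring
  have htop : ∀ (S : Finset (Fin n)) (x : ℝ), (∀ i ∈ S, ∀ j ∉ S, lin (h j) x < lin (h i) x) ↔
      (Int.fract x ≤ 1 / 2 → ∀ i ∈ S, ∀ j ∉ S, h j ⌊x⌋ < h i ⌊x⌋) ∧
      (1 / 2 ≤ Int.fract x → ∀ i ∈ S, ∀ j ∉ S, h j (⌊x⌋ + 1) < h i (⌊x⌋ + 1)) := by
    intro S x
    have hne : ∀ i ∈ S, ∀ j ∉ S, i ≠ j := fun i hi j hj e => hj (e ▸ hi)
    constructor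
    · intro H
      exact ⟨fun e i hi j hj => ((lin_lt_iff hinj hs (hne i hi j hj) x).1 (H i hi j hj)).1 e,
        fun e i hi j hj => ((lin_lt_iff hinj hs (hne i hi j hj) x).1 (H i hi j hj)).2 e⟩
    · rintro ⟨H1, H2⟩ i hi j hj
      exact (lin_lt_iff hinj hs (hne i hi j hj) x).2
        ⟨fun e => H1 e i hi j hj, fun e => H2 e i hi j hj⟩
  refine ⟨fun t => lin g (N * t), fun i t => lin (h i) (N * t),
    (continuous_lin g).comp (by fun_prop), ?_, hψ, ?_, ?_, ?_, ?_⟩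
  · intro t
    have e : N * (t + 1) = N * t + ((n * M : ℤ) : ℝ) := by push_cast; ring
    simp only
    rw [e, lin_add_int]
    congr 1
    funext t
    exact hper t
  · intro S
    obtain ⟨A, p', q', hA, hB, H1', H2⟩ := hcont S
    refine ⟨A, fun a => {t | (∀ i ∈ S, ∀ j ∉ S, lin (h j) (N * t) < lin (h i) (N * t)) ∧
      t ∈ Icc (((p' a : ℝ) - 1 / 2) / N) ((q' a + 1 / 2) / N)}, hA, hB,
      fun a ha => ⟨?_, fun t ht => ht.1⟩, ?_⟩
    · obtain ⟨hpq, H1⟩ := H1' a ha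
      simp only
      generalize p' a = p at hpq H1 ⊢
      generalize q' a = q at hpq H1 ⊢
      have hpq' : (p : ℝ) ≤ q := by exact_mod_cast hpq
      have hlt : ((p : ℝ) - 1 / 2) / N < (q + 1 / 2) / N :=
        div_lt_div_of_pos_right (by linarith) hN0
      refine (isConnected_Ioo hlt).subset_closure ?_ ?_
      · intro t ht
        refine ⟨?_, Ioo_subset_Icc_self ht⟩
        obtain ⟨t1, t2⟩ := ht
        rw [div_lt_iff₀ hN0] at t1
        rw [lt_div_iff₀ hN0] at t2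
        have e := Int.floor_add_fract (N * t)
        have f0 := Int.fract_nonneg (N * t)
        have f1 := Int.fract_lt_one (N * t)
        rw [htop]
        constructor
        · intro c
          refine H1 _ ?_ ?_
          · have : (p : ℝ) - 1 < ⌊N * t⌋ := by linarith
            have : p - 1 < ⌊N * t⌋ := by exact_mod_cast this
            omega
          · have : (⌊N * t⌋ : ℝ) < q + 1 := by linarith
            have : ⌊N * t⌋ < q + 1 := by exact_mod_cast this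
            omega
        · intro c
          refine H1 _ ?_ ?_
          · have : (p : ℝ) - 2 < ⌊N * t⌋ := by linarith
            have : p - 2 < ⌊N * t⌋ := by exact_mod_cast this
            omega
          · have : (⌊N * t⌋ : ℝ) < q := by linarith
            have : ⌊N * t⌋ < q := by exact_mod_cast this
            omega
      · rw [closure_Ioo hlt.ne]
        exact fun t ht => ht.2
    · intro t ht
      have e := Int.floor_add_fract (N * t)
      have f0 := Int.fract_nonneg (N * t)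
      have f1 := Int.fract_lt_one (N * t)
      have key : ∃ a ∈ A, ∃ k : ℤ, (p' a : ℝ) - 1 / 2 ≤ N * t + k * N ∧
          N * t + k * N ≤ q' a + 1 / 2 := by
        obtain ⟨a1, a2⟩ := (htop S _).1 ht
        rcases le_total (Int.fract (N * t)) (1 / 2) with c | c
        · obtain ⟨a, ha, k, k1, k2⟩ := H2 _ (a1 c)
          have k1' : (p' a : ℝ) ≤ ⌊N * t⌋ + k * (n * M) := by exact_mod_cast k1
          have k2' : (⌊N * t⌋ : ℝ) + k * (n * M) ≤ q' a := by exact_mod_cast k2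
          rw [← hN] at k1' k2'
          exact ⟨a, ha, k, by linarith, by linarith⟩
        · obtain ⟨a, ha, k, k1, k2⟩ := H2 _ (a2 c)
          have k1' : (p' a : ℝ) ≤ ⌊N * t⌋ + 1 + k * (n * M) := by exact_mod_cast k1
          have k2' : (⌊N * t⌋ : ℝ) + 1 + k * (n * M) ≤ q' a := by exact_mod_cast k2
          rw [← hN] at k1' k2'
          exact ⟨a, ha, k, by linarith, by linarith⟩
      obtain ⟨a, ha, k, k1, k2⟩ := key
      refine ⟨a, ha, k, ?_, ?_, ?_⟩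
      · have e : N * (t + k) = N * t + k * N := by ring
        simp only [e, hshift]
        exact ht
      · rw [div_le_iff₀ hN0]
        linarith
      · rw [le_div_iff₀ hN0]
        linarith
  · intro i j hij
    refine ((Set.finite_Icc (0 : ℤ) (n * M)).image fun k : ℤ => ((k : ℝ) + 1 / 2) / N).subset ?_
    rintro t ⟨t0, t1, e⟩
    obtain ⟨a, b, hs⟩ := hs ⌊N * t⌋
    obtain ⟨e1, -⟩ := lin_eq_imp hinj hs hij e
    refine ⟨⌊N * t⌋, ⟨Int.floor_nonneg.2 (by positivity), ?_⟩, ?_⟩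
    · have : (⌊N * t⌋ : ℝ) ≤ ((n * M : ℤ) : ℝ) := by
        push_cast
        have := Int.floor_le (N * t)
        nlinarith
      exact_mod_cast this
    · simp only
      rw [← e1, Int.floor_add_fract]
      field_simp
  · intro i j k t hij hjk hik e1 e2
    obtain ⟨a, b, hs⟩ := hs ⌊N * t⌋
    obtain ⟨-, c1⟩ := lin_eq_imp hinj hs hij e1
    obtain ⟨-, c2⟩ := lin_eq_imp hinj hs hjk e2
    rcases c1 with ⟨rfl, rfl⟩ | ⟨rfl, rfl⟩
    · rcases c2 with ⟨c, -⟩ | ⟨-, c⟩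
      · exact hij c.symm
      · exact hik c.symm
    · rcases c2 with ⟨-, c⟩ | ⟨c, -⟩
      · exact hik c.symm
      · exact hij c.symm
  · intro i j t hij e
    have := lin_frequently hinj hs hij e
    have hm : map (fun y => N * y) (𝓝 t) = 𝓝 (N * t) :=
      (Homeomorph.mulLeft₀ N hN0.ne').map_nhds_eq t
    rw [← hm, frequently_map] at this
    exact this

theorem polar_of_odd (n : ℕ) (hn : 3 ≤ n) (hodd : Odd n) : ∃ (ι : ℤ → Fin n),
    (∀ y y' : ℤ, 0 ≤ y → y < n → 0 ≤ y' → y' < n → ι y = ι y' → y = y') ∧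
    ∃ Φ ψ, PolarGen n (fun S c => c ≤ n / n.minFac ∧
      (c ≤ 1 ∨ ∃ D : ℕ, n ≤ 3 * D ∧ 3 * D ≤ 2 * n ∧ Av ι D S)) Φ ψ := by
  obtain ⟨k, hk⟩ := hodd
  obtain ⟨M, g, h, ι, h0, h1, h2, h3, h4, h5, h6⟩ := wires_gen n (k - 1) (by omega)
  exact ⟨ι, h0, polar_gen n M _ (by omega) h1 g h2 h h3 h4 h5 h6⟩

variable {n : ℕ} {G : Finset (Fin n) → ℕ → Prop} {Φ : ℝ → ℝ} {ψ : Fin n → ℝ → ℝ}

theorem PolarGen.cont (h : PolarGen n G Φ ψ) (i : Fin n) : Continuous (ψ i) := by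
  have := h.1
  rw [show ψ i = fun t => Φ (t - (i : ℕ) / n) from funext (h.2.2.1 i)]
  fun_prop

theorem PolarGen.per (h : PolarGen n G Φ ψ) (i : Fin n) : Function.Periodic (ψ i) 1 := by
  intro t
  rw [h.2.2.1, h.2.2.1, show t + 1 - ((i : ℕ) : ℝ) / n = t - (i : ℕ) / n + 1 by ring, h.2.1]

theorem PolarGen.finite (h : PolarGen n G Φ ψ) {i j : Fin n} (hij : i ≠ j) :
    (Cu (ψ i) ∩ Cu (ψ j)).Finite := by
  refine ((h.2.2.2.2.1 i j hij).image fun t => E (ψ i t) t).subset ?_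
  rintro z ⟨⟨t, rfl⟩, hz⟩
  rw [E_mem_Cu (h.per j)] at hz
  have e : Int.fract t = t + ((-⌊t⌋ : ℤ) : ℝ) := by
    rw [Int.fract]
    push_cast
    ring
  refine ⟨Int.fract t, ⟨Int.fract_nonneg t, Int.fract_lt_one t, ?_⟩, ?_⟩
  · rw [e, per_int (h.per i), per_int (h.per j), hz]
  · simp only
    rw [e, per_int (h.per i), E_add_int]

theorem PolarGen.simple (h : PolarGen n G Φ ψ) {z : ℂ} {i j k : Fin n} (hi : z ∈ Cu (ψ i))
    (hj : z ∈ Cu (ψ j)) (hk : z ∈ Cu (ψ k)) : i = j ∨ j = k ∨ i = k := by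
  by_contra hne
  push Not at hne
  obtain ⟨t, rfl⟩ := hi
  rw [E_mem_Cu (h.per _)] at hj hk
  exact h.2.2.2.2.2.1 i j k t hne.1 hne.2.1 hne.2.2 hj (hj ▸ hk)

theorem PolarGen.cross (h : PolarGen n G Φ ψ) {z : ℂ} {i j : Fin n} (hij : i ≠ j)
    (hi : z ∈ Cu (ψ i)) (hj : z ∈ Cu (ψ j)) :
    z ∈ closure (Cu (ψ j) ∩ In (ψ i)) ∧ z ∈ closure (Cu (ψ j) ∩ Ou (ψ i)) := by
  obtain ⟨t, rfl⟩ := hj
  rw [E_mem_Cu (h.per _)] at hi
  exact ⟨mem_closure_E (ρ := ψ j) (τ := fun y => y) (h.cont j) continuous_id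
      ((h.2.2.2.2.2.2 i j t hij hi.symm).mono fun y hy => ⟨⟨y, rfl⟩, (E_mem_In (h.per i)).2 hy⟩),
    mem_closure_E (ρ := ψ j) (τ := fun y => y) (h.cont j) continuous_id
      ((h.2.2.2.2.2.2 j i t hij.symm hi).mono fun y hy => ⟨⟨y, rfl⟩, (E_mem_Ou (h.per i)).2 hy⟩)⟩

open Classical in
theorem PolarGen.region (h : PolarGen n G Φ ψ) (S : Set (Fin n)) :
    ((⋂ i ∈ S, In (ψ i)) ∩ ⋂ i ∉ S, Ou (ψ i)).Nonempty ∧ ∃ (F : Finset (Set ℂ)) (c : ℕ),
      G S.toFinset c ∧ F.card ≤ c ∧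
      (∀ R ∈ F, IsConnected R) ∧ ⋃₀ (F : Set (Set ℂ)) = (⋂ i ∈ S, In (ψ i)) ∩ ⋂ i ∉ S, Ou (ψ i) := by
  obtain ⟨A, J, hA, hB, a1, a2⟩ := h.2.2.2.1 S.toFinset
  simp only [Set.mem_toFinset] at a1 a2
  by_cases htriv : ∀ i ∈ S, ∀ j, j ∈ S
  · have := region_connected ψ h.cont h.per S.toFinset univ isConnected_univ
      (fun t _ i hi j hj => absurd (Set.mem_toFinset.2 (htriv i (Set.mem_toFinset.1 hi) j)) hj)
      (fun t _ => ⟨0, trivial⟩)
    have hc : IsConnected ((⋂ i ∈ S, In (ψ i)) ∩ ⋂ i ∉ S, Ou (ψ i)) := by simpa using this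
    refine ⟨hc.nonempty, {_}, _, hB, ?_, fun R hR => Finset.mem_singleton.1 hR ▸ hc, by simp⟩
    rw [Finset.card_singleton]
    exact hA.card_pos
  push Not at htriv
  obtain ⟨i₀, hi₀, j₀, hj₀⟩ := htriv
  have h1 : S.toFinset.Nonempty := ⟨i₀, Set.mem_toFinset.2 hi₀⟩
  have h0 : (S.toFinsetᶜ).Nonempty := ⟨j₀, by simpa using hj₀⟩
  let lo : ℝ → ℝ := fun t => (S.toFinsetᶜ).sup' h0 fun j => ψ j t
  have hlo : Continuous lo := Continuous.finset_sup'_apply h0 fun j _ => h.cont j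
  have hlo' : ∀ t r, lo t < r ↔ ∀ j ∉ S, ψ j t < r := by
    intro t r
    simp only [lo, Finset.sup'_lt_iff, Finset.mem_compl, Set.mem_toFinset]
  let hi : ℝ → ℝ := fun t => S.toFinset.inf' h1 fun j => ψ j t
  have hhi : Continuous hi := Continuous.finset_inf'_apply h1 fun j _ => h.cont j
  have hhi' : ∀ t r, r < hi t ↔ ∀ i ∈ S, r < ψ i t := by
    intro t r
    simp only [hi, Finset.lt_inf'_iff, Set.mem_toFinset]
  let R : ℤ → Set ℂ := fun a => {z | ∃ r t, t ∈ J a ∧ z = E r t ∧ lo t < r ∧ r < hi t}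
  have hR : ∀ a ∈ A, IsConnected (R a) := by
    intro a ha
    have hlt : ∀ t ∈ J a, lo t < hi t := fun t ht =>
      (hhi' _ _).2 fun i hi => (hlo' _ _).2 fun j hj => (a1 a ha).2 t ht i hi j hj
    obtain ⟨t₀, ht₀⟩ := (a1 a ha).1.nonempty
    have := hlt t₀ ht₀
    exact ⟨⟨_, (lo t₀ + hi t₀) / 2, t₀, ht₀, rfl, by linarith, by linarith⟩,
      isPreconnected_between hlo hhi (a1 a ha).1.isPreconnected hlt⟩
  have hU : ⋃₀ ((A.image R : Finset (Set ℂ)) : Set (Set ℂ)) =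
      (⋂ i ∈ S, In (ψ i)) ∩ ⋂ i ∉ S, Ou (ψ i) := by
    ext z
    simp only [mem_inter_iff, mem_iInter, mem_sUnion, Finset.mem_coe, Finset.mem_image]
    constructor
    · rintro ⟨_, ⟨a, -, rfl⟩, r, t, -, rfl, h2, h3⟩
      simp only [E_mem_In (h.per _), E_mem_Ou (h.per _)]
      exact ⟨(hhi' _ _).1 h3, (hlo' _ _).1 h2⟩
    · rintro ⟨h1, h2⟩
      have hz : z ≠ 0 := by
        rintro rfl
        exact zero_not_mem_Ou (h2 j₀ hj₀)
      obtain ⟨r, t, rfl⟩ := exists_E hz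
      simp only [E_mem_In (h.per _), E_mem_Ou (h.per _)] at h1 h2
      obtain ⟨a, ha, k, hk⟩ := a2 t fun i hi j hj => (h2 j hj).trans (h1 i hi)
      refine ⟨R a, ⟨a, ha, rfl⟩, r, t + k, hk, (E_add_int r t k).symm,
        (hlo' _ _).2 fun j hj => ?_, (hhi' _ _).2 fun i hi => ?_⟩
      · rw [per_int (h.per j)]
        exact h2 j hj
      · rw [per_int (h.per i)]
        exact h1 i hi
  refine ⟨?_, A.image R, _, hB, Finset.card_image_le, fun T hT => ?_, hU⟩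
  · obtain ⟨a, ha⟩ := hA
    rw [← hU]
    exact (hR a ha).nonempty.mono (subset_sUnion_of_mem (by simpa using ⟨a, ha, rfl⟩))
  · obtain ⟨a, ha, rfl⟩ := Finset.mem_image.1 hT
    exact hR a ha

theorem PolarGen.rot (h : PolarGen n G Φ ψ) {i j : Fin n} (hij : (j : ℕ) = (i + 1) % n) :
    Cu (ψ j) = (fun z => Complex.exp (2 * Real.pi / n * Complex.I) * z) '' Cu (ψ i) := by
  have hn : 0 < n := i.pos
  have hn' : (n : ℝ) ≠ 0 := by positivity
  have key : ∀ t, ψ j (t + 1 / n) = ψ i t := by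
    intro t
    rw [h.2.2.1, h.2.2.1]
    have e : (((i : ℕ) + 1 : ℕ) : ℝ) = n * ((((i : ℕ) + 1) / n : ℕ) : ℝ) + (j : ℕ) := by
      rw [hij]
      exact_mod_cast (Nat.div_add_mod _ _).symm
    generalize ((i : ℕ) + 1) / n = q at e
    have e2 : t + 1 / n - ((j : ℕ) : ℝ) / n = t - ((i : ℕ) : ℝ) / n + ((q : ℤ) : ℝ) := by
      push_cast at e ⊢
      field_simp
      linarith
    rw [e2, per_int h.2.1]
  have e : 2 * (Real.pi : ℂ) * ((1 / n : ℝ) : ℂ) * Complex.I = 2 * Real.pi / n * Complex.I := by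
    push_cast
    ring
  rw [Cu_shift key, e]

theorem PolarGen.congruent (h : PolarGen n G Φ ψ) (i j : Fin n) :
    ∃ e : ℂ ≃ᵢ ℂ, e '' Cu (ψ i) = Cu (ψ j) := by
  refine exists_isometry (a := ((j : ℕ) : ℝ) / n - ((i : ℕ) : ℝ) / n) fun t => ?_
  rw [h.2.2.1, h.2.2.1]
  congr 1
  ring

theorem PolarGen.few {ι : ℤ → Fin n} {B : ℕ}
    (hι : ∀ y y' : ℤ, 0 ≤ y → y < n → 0 ≤ y' → y' < n → ι y = ι y' → y = y')
    (h : PolarGen n (fun S c => c ≤ B ∧
      (c ≤ 1 ∨ ∃ D : ℕ, n ≤ 3 * D ∧ 3 * D ≤ 2 * n ∧ Av ι D S)) Φ ψ) (hn : 0 < n) :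
    32 ^ (n / 15) * {S : Set (Fin n) |
      ¬ IsConnected ((⋂ i ∈ S, In (ψ i)) ∩ ⋂ i ∉ S, Ou (ψ i))}.ncard ≤
      n * (31 ^ (n / 15) * 2 ^ n) := by
  classical
  let I : Finset ℕ := (Finset.range n).filter fun D => n ≤ 3 * D ∧ 3 * D ≤ 2 * n
  let U : Finset (Finset (Fin n)) := I.biUnion fun D => Finset.univ.filter fun S => Av ι D S
  have h1 : {S : Set (Fin n) |
      ¬ IsConnected ((⋂ i ∈ S, In (ψ i)) ∩ ⋂ i ∉ S, Ou (ψ i))}.ncard ≤ U.card := by
    rw [← Set.ncard_coe_finset]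
    refine Set.ncard_le_ncard_of_injOn (fun S => S.toFinset) (fun S hS => ?_)
      (fun S _ S' _ e => Set.toFinset_inj.1 e) U.finite_toSet
    obtain ⟨hne, F, c, ⟨-, hc | ⟨D, d1, d2, d3⟩⟩, hF, hcon, hU⟩ := h.region S
    · exfalso
      apply hS
      rw [← hU] at hne ⊢
      obtain ⟨z, R, hR, -⟩ := hne
      have : (F : Set (Set ℂ)) = {R} := by
        ext R'
        exact ⟨fun hR' => Finset.card_le_one.1 (hF.trans hc) _ hR' _ hR, fun e => e ▸ hR⟩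
      rw [this, sUnion_singleton]
      exact hcon R hR
    · refine Finset.mem_coe.2 (Finset.mem_biUnion.2 ⟨D, Finset.mem_filter.2
        ⟨Finset.mem_range.2 (by omega), d1, d2⟩, Finset.mem_filter.2 ⟨Finset.mem_univ _, ?_⟩⟩)
      convert d3
  refine (Nat.mul_le_mul_left _ (h1.trans Finset.card_biUnion_le)).trans ?_
  rw [Finset.mul_sum]
  refine (Finset.sum_le_card_nsmul _ _ (31 ^ (n / 15) * 2 ^ n) fun D hD => ?_).trans ?_
  · have hD' := (Finset.mem_filter.1 hD).2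
    convert count_av ι hι D (by omega) (by omega)
  · rw [smul_eq_mul]
    exact Nat.mul_le_mul_right _ ((Finset.card_filter_le _ _).trans (by simp))

end Pool.Agent.FS.OddVenn2
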